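import Mathlib
import Pool.Agent.H.MP_d046ed_co.A

namespace Pool.Agent.Results.MP_d046ed_co.Yes

open Filter Topology Pool.Agent.H.MP_d046ed_co.A

/-- The positive integers `m` with `α n < m ≤ n`. -/
def P (α : ℝ) (n : ℕ) : Type := {m : ℕ // 0 < m ∧ α * n < m ∧ m ≤ n}

/-- `Div((α n, n])` has an order embedding into the product of `d` chains with `t` elements. -/
def Embeds (α : ℝ) (n t d : ℕ) : Prop :=
  ∃ f : P α n → (Fin d → Fin t), Function.Injective f ∧ ∀ x y : P α n, x.1 ∣ y.1 ↔ f x ≤ f y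

/-- The `t`-dimension: the least `d ≥ 1` with an order embedding. -/
noncomputable def dim (α : ℝ) (n t : ℕ) : ℕ := sInf {d | 1 ≤ d ∧ Embeds α n t d}

def L (n : ℕ) : ℕ := Nat.log 2 (Nat.log 2 n) + 1

def up (t K n : ℕ) : ℕ := (Nat.log t n + 1) + (L n + t) * 2 + ((K + 1) * L n) ^ K * 2 ^ K

theorem up_mem {α : ℝ} {t K : ℕ} (ht : 2 ≤ t) (hK : 1 ≤ K * α) (n : ℕ) :
    up t K n ∈ {d | 1 ≤ d ∧ Embeds α n t d} := by
  refine ⟨by unfold up; omega, ?_⟩
  have h1 : Nat.log 2 n + 1 ≤ 2 ^ L n := Nat.lt_pow_succ_log_self (by norm_num) _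
  have h2 : n < 2 ^ 2 ^ L n :=
    (Nat.lt_pow_succ_log_self (by norm_num) n).trans_le (Nat.pow_le_pow_right (by norm_num) h1)
  have h3 : Nat.log t n ≤ Nat.log 2 n := Nat.log_anti_left (by norm_num) ht
  have h4 : (Nat.log t n + 1) * t < 2 ^ (L n + t) := by
    rw [pow_add]
    exact Nat.mul_lt_mul_of_le_of_lt (by omega) Nat.lt_two_pow_self (by positivity)
  obtain ⟨f, hf⟩ := emb (K := K) (L := L n) (n := n) ht (by unfold L; omega)
    (fun m => 0 < m ∧ α * n < m ∧ m ≤ n) (fun m h => ⟨h.1, h.2.2⟩) (by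
      rintro z b ⟨-, hz, -⟩ ⟨-, -, hb⟩ -
      have hb' : (b : ℝ) ≤ n := by exact_mod_cast hb
      have hn : (0 : ℝ) ≤ n := by positivity
      have hK0 : (0 : ℝ) ≤ K := by positivity
      have : (b : ℝ) ≤ K * z := by nlinarith
      exact_mod_cast this)
    (Nat.lt_pow_succ_log_self (by omega) n) h2 h4
  refine ⟨f, fun x y h => ?_, hf⟩
  exact Subtype.ext (Nat.dvd_antisymm ((hf x y).2 h.le) ((hf y x).2 h.ge))

theorem lower {α : ℝ} {n t d : ℕ} (hα : 0 < α) (h : Embeds α n t d) :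
    (1 - α) * n ≤ (t : ℝ) ^ d := by
  obtain ⟨f, hf, -⟩ := h
  have hα' : 0 ≤ α * n := by positivity
  let g : Finset.Ioc ⌊α * n⌋₊ n → P α n := fun x => ⟨x.1, by
    have := Finset.mem_Ioc.1 x.2
    exact ⟨by omega, (Nat.floor_lt hα').1 this.1, this.2⟩⟩
  have hg : Function.Injective g := fun x y h =>
    Subtype.ext (congrArg (fun z : P α n => z.1) h)
  have := Fintype.card_le_of_injective _ (hf.comp hg)
  simp only [Fintype.card_coe, Nat.card_Ioc, Fintype.card_fun, Fintype.card_fin] at this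
  have h2 : n ≤ t ^ d + ⌊α * n⌋₊ := by omega
  have h3 : (n : ℝ) ≤ (t : ℝ) ^ d + (⌊α * n⌋₊ : ℝ) := by exact_mod_cast h2
  have := Nat.floor_le hα'
  linarith

theorem logtop : Tendsto (fun n : ℕ => Real.log n) atTop atTop :=
  Real.tendsto_log_atTop.comp tendsto_natCast_atTop_atTop

theorem natlog_le {t : ℕ} (ht : 2 ≤ t) {n : ℕ} (hn : n ≠ 0) :
    (Nat.log t n : ℝ) * Real.log t ≤ Real.log n := by
  rw [← Real.log_pow]
  have : t ^ Nat.log t n ≤ n := Nat.pow_log_le_self t hn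
  exact Real.log_le_log (by positivity) (by exact_mod_cast this)

theorem small (k : ℕ) : Tendsto (fun n : ℕ => (L n : ℝ) ^ k / Real.log n) atTop (𝓝 0) := by
  have hl : Tendsto (fun n : ℕ => Nat.log 2 n) atTop atTop := by
    refine tendsto_atTop.2 fun b => ?_
    filter_upwards [eventually_ge_atTop (2 ^ b)] with n hn
    exact Nat.le_log_of_pow_le (by norm_num) hn
  have hL : Tendsto L atTop atTop := (tendsto_add_atTop_nat 1).comp (hl.comp hl)
  have h1 := ((tendsto_pow_const_div_const_pow_of_one_lt k (r := 2) (by norm_num)).comp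
    hL).mul_const (2 / Real.log 2)
  rw [zero_mul] at h1
  have h2 : 0 < Real.log 2 := Real.log_pos (by norm_num)
  refine squeeze_zero' ?_ ?_ h1
  · filter_upwards with n
    exact div_nonneg (by positivity) (Real.log_natCast_nonneg n)
  · filter_upwards [eventually_ge_atTop 2] with n hn
    have h3 := natlog_le (le_refl 2) (show n ≠ 0 by omega)
    have h4 : Nat.log 2 n ≠ 0 := (Nat.log_pos (by norm_num) hn).ne'
    have h5 : 2 ^ Nat.log 2 (Nat.log 2 n) ≤ Nat.log 2 n := Nat.pow_log_le_self 2 h4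
    have h6 : (2 : ℝ) ^ Nat.log 2 (Nat.log 2 n) ≤ Nat.log 2 n := by exact_mod_cast h5
    have h7 : (2 : ℝ) ^ L n = 2 ^ Nat.log 2 (Nat.log 2 n) * 2 := by unfold L; rw [pow_succ]
    have h8 : (2 : ℝ) ^ L n * Real.log 2 / 2 ≤ Real.log n := by
      push_cast at h3
      rw [h7]
      nlinarith
    simp only [Function.comp]
    calc (L n : ℝ) ^ k / Real.log n ≤ (L n : ℝ) ^ k / ((2 : ℝ) ^ L n * Real.log 2 / 2) :=
          div_le_div_of_nonneg_left (by positivity) (by positivity) h8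
      _ = _ := by field_simp

theorem main {α : ℝ} {t : ℕ} (h0 : 0 < α) (h1 : α < 1) (ht : 2 ≤ t) :
    Tendsto (fun n : ℕ => (dim α n t : ℝ) / (1 / Real.log t * Real.log n)) atTop (𝓝 1) := by
  obtain ⟨K, hK⟩ : ∃ K : ℕ, 1 ≤ K * α := by
    obtain ⟨K, hK⟩ := exists_nat_ge (1 / α)
    exact ⟨K, by rwa [div_le_iff₀ h0] at hK⟩
  have hlt : 0 < Real.log t := Real.log_pos (by exact_mod_cast ht)
  have hlo : Tendsto (fun n : ℕ => 1 + Real.log (1 - α) * ((L n : ℝ) ^ 0 / Real.log n)) atTop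
      (𝓝 (1 + Real.log (1 - α) * 0)) := ((small 0).const_mul _).const_add _
  have hup : Tendsto (fun n : ℕ => 1 + Real.log t * ((1 + 2 * t) * ((L n : ℝ) ^ 0 / Real.log n) +
      2 * ((L n : ℝ) ^ 1 / Real.log n) + ((K + 1) ^ K * 2 ^ K) * ((L n : ℝ) ^ K / Real.log n)))
      atTop (𝓝 (1 + Real.log t * ((1 + 2 * t) * 0 + 2 * 0 + ((K + 1) ^ K * 2 ^ K) * 0))) :=
    ((((small 0).const_mul _).add ((small 1).const_mul _)).add
      ((small K).const_mul _)).const_mul _ |>.const_add _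
  simp only [mul_zero, add_zero] at hlo hup
  refine tendsto_of_tendsto_of_tendsto_of_le_of_le' hlo hup ?_ ?_
  · filter_upwards [eventually_ge_atTop 2] with n hn
    have hn' : (1 : ℝ) < n := by exact_mod_cast hn
    have hl : 0 < Real.log n := Real.log_pos hn'
    have hm : dim α n t ∈ {d | 1 ≤ d ∧ Embeds α n t d} := Nat.sInf_mem ⟨_, up_mem ht hK n⟩
    have h2 := Real.log_le_log (mul_pos (by linarith) (by linarith)) (lower h0 hm.2)
    rw [Real.log_mul (by linarith) (by linarith), Real.log_pow] at h2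
    rw [le_div_iff₀ (by positivity)]
    have : (1 + Real.log (1 - α) * ((L n : ℝ) ^ 0 / Real.log n)) * (1 / Real.log t * Real.log n)
        = (Real.log (1 - α) + Real.log n) / Real.log t := by field_simp; ring
    rw [this, div_le_iff₀ hlt]
    exact h2
  · filter_upwards [eventually_ge_atTop 2] with n hn
    have hn' : (1 : ℝ) < n := by exact_mod_cast hn
    have hl : 0 < Real.log n := Real.log_pos hn'
    have hm : dim α n t ≤ up t K n := Nat.sInf_le (up_mem ht hK n)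
    have hm' : (dim α n t : ℝ) ≤ (Nat.log t n + 1) + (L n + t) * 2 +
        ((K + 1) * L n) ^ K * 2 ^ K := by
      unfold up at hm
      exact_mod_cast hm
    have h3 := natlog_le ht (show n ≠ 0 by omega)
    rw [div_le_iff₀ (by positivity)]
    have : (1 + Real.log t * ((1 + 2 * t) * ((L n : ℝ) ^ 0 / Real.log n) +
        2 * ((L n : ℝ) ^ 1 / Real.log n) + ((K + 1) ^ K * 2 ^ K) * ((L n : ℝ) ^ K / Real.log n))) *
        (1 / Real.log t * Real.log n) = Real.log n / Real.log t +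
        (1 + (L n + t) * 2 + ((K + 1) * L n) ^ K * 2 ^ K) := by
      rw [mul_pow]
      field_simp
      ring
    rw [this]
    have h4 : (Nat.log t n : ℝ) ≤ Real.log n / Real.log t := by rwa [le_div_iff₀ hlt]
    linarith

theorem result (α : ℝ) (t : ℕ) (h0 : 0 < α) (h1 : α < 1) (ht : 2 ≤ t) :
    (∀ n, ∃ d, 1 ≤ d ∧ Embeds α n t d) ∧
    ∃ c : ℝ, c = 1 / Real.log t ∧
      Tendsto (fun n : ℕ => (dim α n t : ℝ) / (c * Real.log n)) atTop (𝓝 1) := by
  refine ⟨fun n => ?_, _, rfl, main h0 h1 ht⟩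
  obtain ⟨K, hK⟩ := exists_nat_ge (1 / α)
  exact ⟨_, up_mem ht (K := K) (by rwa [div_le_iff₀ h0] at hK) n⟩

end Pool.Agent.Results.MP_d046ed_co.Yes
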